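import Mathlib

/-!
# helper6: involution and group action on a skew group ring

`S = SkewMonoidAlgebra E F`, `E` a ring with an action of the group `F`.
`starSk hst : StarRing S` : `star (single f e) = single f⁻¹ (f⁻¹ • star e)`, for a star ring `E` with
`star (f • e) = f • star e`.
`qAct th aq hq : Q →* RingAut S` : `single f e ↦ single (th q f) (aq q e)`, for `th : Q →* MulAut F`,
`aq : Q →* RingAut E` with `aq q (f • e) = th q f • aq q e`; it commutes with the star if `aq` does.
`actOf ac` : the action given by `ac : G →* RingAut E`.
-/

namespace Pool.Agent.H6.SK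

open MulOpposite SkewMonoidAlgebra

set_option linter.unusedSectionVars false

section Act

variable {G E : Type*} [Group G] [Ring E]

/-- The action given by a homomorphism to the ring automorphisms. -/
@[reducible] def actOf (ac : G →* RingAut E) : MulSemiringAction G E where
  smul g e := ac g e
  one_smul e := by
    show ac 1 e = e
    rw [map_one]
    rfl
  mul_smul g h e := by
    show ac (g * h) e = ac g (ac h e)
    rw [map_mul]
    rfl
  smul_zero g := map_zero (ac g)
  smul_add g := map_add (ac g)
  smul_one g := map_one (ac g)
  smul_mul g := map_mul (ac g)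

theorem actOf_smul (ac : G →* RingAut E) (g : G) (e : E) :
    (actOf ac).toMulAction.toSMul.smul g e = ac g e := rfl

end Act

section Hom

variable {E F R : Type*} [Ring E] [Group F] [MulSemiringAction F E] [Ring R]

/-- Ring homomorphisms from the skew group ring. -/
noncomputable def lft (f : E →+* R) (g : F →* R) (h : ∀ x y, f (y • x) * g y = g y * f x) :
    SkewMonoidAlgebra E F →+* R := liftNCRingHom f g (h _ _)

theorem lft_single (f : E →+* R) (g : F →* R) (h : ∀ x y, f (y • x) * g y = g y * f x) (y : F)
    (x : E) : lft f g h (single y x) = f x * g y := by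
  show liftNC _ _ _ = _
  rw [liftNC_single]
  rfl

theorem sk_hom_ext {M : Type*} [AddCommMonoid M] {f g : SkewMonoidAlgebra E F →+ M}
    (h : ∀ y x, f (single y x) = g (single y x)) : f = g := addHom_ext h

theorem sk_ring_ext {f g : SkewMonoidAlgebra E F →+* R}
    (h : ∀ y x, f (single y x) = g (single y x)) : f = g := by
  have h1 : (f : SkewMonoidAlgebra E F →+ R) = g := addHom_ext h
  exact RingHom.coe_addMonoidHom_injective h1

theorem single_mul' (g h : F) (a b : E) :
    (single g a : SkewMonoidAlgebra E F) * single h b = single (g * h) (a * g • b) :=
  single_mul_single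

/-- the group elements -/
noncomputable def ofS : F →* SkewMonoidAlgebra E F where
  toFun g := single g 1
  map_one' := rfl
  map_mul' g h := by rw [single_mul', smul_one, mul_one]

theorem ofS_apply (g : F) : (ofS g : SkewMonoidAlgebra E F) = single g 1 := rfl

/-- the coefficients -/
noncomputable def cf : E →+* SkewMonoidAlgebra E F where
  toFun e := single 1 e
  map_one' := rfl
  map_mul' a b := by rw [single_mul', one_smul, mul_one]
  map_zero' := single_zero 1
  map_add' := single_add 1

theorem cf_apply (e : E) : (cf e : SkewMonoidAlgebra E F) = single 1 e := rfl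

end Hom

section Star

variable {E F : Type*} [Ring E] [Group F] [MulSemiringAction F E] [StarRing E]
  (hst : ∀ (g : F) (e : E), star (g • e) = g • star e)

/-- the involution as a homomorphism to the opposite ring -/
noncomputable def starHom : SkewMonoidAlgebra E F →+* (SkewMonoidAlgebra E F)ᵐᵒᵖ :=
  lft
    { toFun := fun e => op (single 1 (star e))
      map_one' := by
        rw [star_one]
        rfl
      map_mul' := fun a b => by
        rw [← op_mul, single_mul', one_smul, star_mul, mul_one]
      map_zero' := by
        rw [star_zero, single_zero]
        rfl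
      map_add' := fun a b => by
        rw [star_add, single_add]
        rfl }
    { toFun := fun g => op (single g⁻¹ 1)
      map_one' := by
        rw [inv_one]
        rfl
      map_mul' := fun a b => by
        rw [← op_mul, single_mul', smul_one, mul_one, mul_inv_rev] }
    (fun x y => by
      show op (single 1 (star (y • x))) * op (single y⁻¹ 1) =
        op (single y⁻¹ 1) * op (single 1 (star x))
      rw [← op_mul, ← op_mul, single_mul', single_mul', hst, inv_smul_smul, one_mul, mul_one,
        one_mul, one_smul, mul_one])

theorem starHom_single (g : F) (e : E) :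
    starHom hst (single g e) = op (single g⁻¹ (g⁻¹ • star e)) := by
  rw [starHom, lft_single]
  show op (single 1 (star e)) * op (single g⁻¹ 1) = _
  rw [← op_mul, single_mul', one_mul, mul_one]

/-- the involution of the skew group ring -/
@[reducible] noncomputable def starSk : StarRing (SkewMonoidAlgebra E F) where
  star s := unop (starHom hst s)
  star_involutive s := by
    show unop (starHom hst (unop (starHom hst s))) = s
    induction s using SkewMonoidAlgebra.induction_on with
    | zero => rw [map_zero, unop_zero, map_zero, unop_zero]
    | single g e =>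
      rw [starHom_single, unop_op, starHom_single, unop_op, hst, star_star, inv_inv,
        smul_inv_smul]
    | add a b ha hb => rw [map_add, unop_add, map_add, unop_add, ha, hb]
  star_mul a b := by
    show unop (starHom hst (a * b)) = unop (starHom hst b) * unop (starHom hst a)
    rw [map_mul, unop_mul]
  star_add a b := by
    show unop (starHom hst (a + b)) = unop (starHom hst a) + unop (starHom hst b)
    rw [map_add, unop_add]

theorem star_def (s : SkewMonoidAlgebra E F) :
    (starSk hst).star s = unop (starHom hst s) := rfl

theorem starSk_single (g : F) (e : E) :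
    (starSk hst).star (single g e : SkewMonoidAlgebra E F) = single g⁻¹ (g⁻¹ • star e) := by
  show unop (starHom hst (single g e)) = _
  rw [starHom_single, unop_op]

end Star

section Map

variable {E F E' F' : Type*} [Ring E] [Group F] [MulSemiringAction F E] [Ring E'] [Group F']
  [MulSemiringAction F' E']

/-- functoriality of the skew group ring -/
noncomputable def skMap (σ : E →+* E') (τ : F →* F') (h : ∀ f e, σ (f • e) = τ f • σ e) :
    SkewMonoidAlgebra E F →+* SkewMonoidAlgebra E' F' :=
  lft (cf.comp σ) (ofS.comp τ) (fun x y => by
    show (single 1 (σ (y • x)) : SkewMonoidAlgebra E' F') * single (τ y) 1 =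
      single (τ y) 1 * single 1 (σ x)
    rw [single_mul', single_mul', h, one_smul, mul_one, one_mul, mul_one, one_mul])

theorem skMap_single (σ : E →+* E') (τ : F →* F') (h : ∀ f e, σ (f • e) = τ f • σ e) (f : F)
    (e : E) : skMap σ τ h (single f e) = single (τ f) (σ e) := by
  rw [skMap, lft_single]
  show (single 1 (σ e) : SkewMonoidAlgebra E' F') * single (τ f) 1 = _
  rw [single_mul', smul_one, mul_one, one_mul]

/-- functoriality for isomorphisms -/
noncomputable def skEquiv (σ : E ≃+* E') (τ : F ≃* F') (h : ∀ f e, σ (f • e) = τ f • σ e) :
    SkewMonoidAlgebra E F ≃+* SkewMonoidAlgebra E' F' :=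
  RingEquiv.ofRingHom (skMap (σ : E →+* E') (τ : F →* F') h)
    (skMap (σ.symm : E' →+* E) (τ.symm : F' →* F) (fun f e => by
      show σ.symm (f • e) = τ.symm f • σ.symm e
      rw [σ.symm_apply_eq, h, τ.apply_symm_apply, σ.apply_symm_apply]))
    (by
      refine sk_ring_ext (fun y x => ?_)
      rw [RingHom.comp_apply, skMap_single, skMap_single]
      simp)
    (by
      refine sk_ring_ext (fun y x => ?_)
      rw [RingHom.comp_apply, skMap_single, skMap_single]
      simp)

theorem skEquiv_single (σ : E ≃+* E') (τ : F ≃* F') (h : ∀ f e, σ (f • e) = τ f • σ e) (f : F)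
    (e : E) : skEquiv σ τ h (single f e) = single (τ f) (σ e) :=
  skMap_single (σ : E →+* E') (τ : F →* F') h f e

end Map

section QAct

variable {E F Q : Type*} [Ring E] [Group F] [MulSemiringAction F E] [Group Q]
  (th : Q →* MulAut F) (aq : Q →* RingAut E) (hq : ∀ q f e, aq q (f • e) = th q f • aq q e)

/-- the action of `Q` on the skew group ring -/
noncomputable def qAct : Q →* RingAut (SkewMonoidAlgebra E F) where
  toFun q := skEquiv (aq q) (th q) (hq q)
  map_one' := by
    apply RingEquiv.toRingHom_injective
    refine sk_ring_ext (fun y x => ?_)
    show skEquiv _ _ _ (single y x) = single y x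
    rw [skEquiv_single, map_one, map_one]
    rfl
  map_mul' p q := by
    apply RingEquiv.toRingHom_injective
    refine sk_ring_ext (fun y x => ?_)
    show skEquiv (aq (p * q)) (th (p * q)) (hq (p * q)) (single y x) =
      skEquiv (aq p) (th p) (hq p) (skEquiv (aq q) (th q) (hq q) (single y x))
    rw [skEquiv_single, skEquiv_single, skEquiv_single, map_mul, map_mul]
    rfl

theorem qAct_single (q : Q) (f : F) (e : E) :
    qAct th aq hq q (single f e) = single (th q f) (aq q e) := skEquiv_single _ _ _ _ _

theorem qAct_star [StarRing E] (hst : ∀ (g : F) (e : E), star (g • e) = g • star e)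
    (hqs : ∀ q e, aq q (star e) = star (aq q e)) (q : Q) (s : SkewMonoidAlgebra E F) :
    qAct th aq hq q ((starSk hst).star s) = (starSk hst).star (qAct th aq hq q s) := by
  induction s using SkewMonoidAlgebra.induction_on with
  | zero =>
    rw [map_zero]
    show qAct th aq hq q (unop (starHom hst 0)) = unop (starHom hst 0)
    rw [map_zero, unop_zero, map_zero]
  | single g e =>
    rw [starSk_single, qAct_single, qAct_single, starSk_single, hq, hqs, map_inv]
  | add a b ha hb =>
    have h1 : (starSk hst).star (a + b) = (starSk hst).star a + (starSk hst).star b :=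
      (starSk hst).star_add a b
    have h2 : ∀ a b : SkewMonoidAlgebra E F, (starSk hst).star (a + b) =
      (starSk hst).star a + (starSk hst).star b := (starSk hst).star_add
    rw [h1, map_add, map_add, h2, ha, hb]

end QAct

section Semi

variable {E F Q : Type*} [Ring E] [Group F] [Group Q] (th : Q →* MulAut F)
  (ac : (F ⋊[th] Q) →* RingAut E)

/-- the action of the normal subgroup -/
@[reducible] def actF : MulSemiringAction F E :=
  actOf (ac.comp (SemidirectProduct.inl (φ := th)))

/-- the compatibility needed by `qAct` for a semidirect product acting on `E` -/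
theorem semi_compat (q : Q) (f : F) (e : E) :
    (ac.comp (SemidirectProduct.inr (φ := th))) q
      ((actF th ac).toMulAction.toSMul.smul f e) =
    (actF th ac).toMulAction.toSMul.smul (th q f)
      ((ac.comp (SemidirectProduct.inr (φ := th))) q e) := by
  show ac (SemidirectProduct.inr q) (ac (SemidirectProduct.inl f) e) =
    ac (SemidirectProduct.inl (th q f)) (ac (SemidirectProduct.inr q) e)
  have h : (SemidirectProduct.inr q : F ⋊[th] Q) * SemidirectProduct.inl f =
      SemidirectProduct.inl (th q f) * SemidirectProduct.inr q := by
    rw [SemidirectProduct.inl_aut, map_inv, inv_mul_cancel_right]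
  have h2 := congrArg ac h
  rw [map_mul, map_mul] at h2
  exact congrArg (fun (u : RingAut E) => u e) h2

end Semi

end Pool.Agent.H6.SK
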